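import Mathlib
import Pool.Agent.helper63.DD.Final

set_option autoImplicit false

/-!
# `t`-dimension versus dimension of the divisibility order on `[n]`

We show `dim_t(Div([n])) = O(1 + log log log n / t) * dim(Div([n]))`, uniformly in `t ≥ 2`.
-/

namespace Pool.Agent.Results.MP_5601c4_co.ChainLengthRatio

open Filter Real

/-- The underlying set `[n] = {1, ..., n}` of the poset `Div([n])`. -/
def Div (n : ℕ) : Type := {k : ℕ // 1 ≤ k ∧ k ≤ n}

/-- `Div([n])` is ordered by divisibility. -/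
instance (n : ℕ) : PartialOrder (Div n) where
  le a b := a.1 ∣ b.1
  le_refl a := dvd_refl a.1
  le_trans _ _ _ h1 h2 := dvd_trans h1 h2
  le_antisymm _ _ h1 h2 := Subtype.ext (Nat.dvd_antisymm h1 h2)

/-- `P` has an order embedding into a product of `d` chains. -/
def EmbedsInChains (P : Type) [PartialOrder P] (d : ℕ) : Prop :=
  ∃ (C : Fin d → Type) (_ : ∀ i, LinearOrder (C i)), Nonempty (P ↪o ((i : Fin d) → C i))

/-- The order dimension: the least `d` such that `P` embeds into a product of `d` chains. -/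
noncomputable def dim (P : Type) [PartialOrder P] : ℕ := sInf {d | EmbedsInChains P d}

/-- The `t`-dimension: the least `d` such that `P` embeds into a product of `d` chains, each with
`t` elements. For `t = 2` this product is the Boolean lattice of subsets of a `d`-element set. -/
noncomputable def dimT (t : ℕ) (P : Type) [PartialOrder P] : ℕ :=
  sInf {d | Nonempty (P ↪o (Fin d → Fin t))}

/-- Main theorem. For all sufficiently large `n` and all `t ≥ 2`,
`dim(Div([n])) ≤ dim_t(Div([n])) ≤ 1400000 (1 + log log log n / t) dim(Div([n]))`. -/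
theorem result : ∀ᶠ n : ℕ in atTop, ∀ t : ℕ, 2 ≤ t →
    dim (Div n) ≤ dimT t (Div n) ∧
    (dimT t (Div n) : ℝ) ≤ 1400000 * (1 + log (log (log n)) / t) * (dim (Div n) : ℝ) := by
  filter_upwards [Pool.Agent.helper63.DD.eventually_good] with n hn t ht
  obtain ⟨hn1, hlll, hup, hlow⟩ := hn
  obtain ⟨m, rfl⟩ : ∃ m, t = m + 1 := ⟨t - 1, by omega⟩
  have hm1 : 1 ≤ m := by omega
  have hm0 : (1 : ℝ) ≤ m := by exact_mod_cast hm1
  set R : ℝ := (log n / log (log n)) ^ 2 with hR
  have hR0 : 0 ≤ R := by rw [hR]; positivity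
  obtain ⟨V, iV, f, hV, hf⟩ := hup m hm1
  have hset : Nonempty (Div n ↪o (Fin (Fintype.card V) → Fin (m + 1))) := by
    classical
    let e := Fintype.equivFin V
    refine ⟨OrderEmbedding.ofMapLEIff (fun (k : Div n) i => f k.1 (e.symm i)) (fun a b => ?_)⟩
    rw [Pi.le_def]
    constructor
    · intro h
      refine (hf a.1 b.1 a.2.1 a.2.2 b.2.1 b.2.2).mp ?_
      intro v
      have := h (e v)
      simpa using this
    · intro h i
      exact (hf a.1 b.1 a.2.1 a.2.2 b.2.1 b.2.2).mpr h _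
  have h1 : dimT (m + 1) (Div n) ≤ Fintype.card V := Nat.sInf_le hset
  have hmem : Nonempty (Div n ↪o (Fin (dimT (m + 1) (Div n)) → Fin (m + 1))) :=
    Nat.sInf_mem (s := {d | Nonempty (Div n ↪o (Fin d → Fin (m + 1)))}) ⟨_, hset⟩
  have hch : EmbedsInChains (Div n) (dimT (m + 1) (Div n)) :=
    ⟨fun _ => Fin (m + 1), fun _ => inferInstance, hmem⟩
  have hdmem : EmbedsInChains (Div n) (dim (Div n)) :=
    Nat.sInf_mem (s := {d | EmbedsInChains (Div n) d}) ⟨_, hch⟩
  have hR72 : R ≤ 72 * (dim (Div n) : ℝ) := by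
    obtain ⟨C, iC, ⟨e⟩⟩ := hdmem
    classical
    let g : ℕ → ∀ i, C i := fun k => if h : 1 ≤ k ∧ k ≤ n then e ⟨k, h⟩ else e ⟨1, le_refl 1, hn1⟩
    have := hlow _ C iC g (by
      intro a b ha1 ha2 hb1 hb2
      simp only [g, dif_pos (⟨ha1, ha2⟩ : 1 ≤ a ∧ a ≤ n), dif_pos (⟨hb1, hb2⟩ : 1 ≤ b ∧ b ≤ n)]
      exact e.le_iff_le)
    linarith
  refine ⟨Nat.sInf_le hch, ?_⟩
  have hfrac : log (log (log (n : ℝ))) / m ≤ 2 * (log (log (log (n : ℝ))) / ((m + 1 : ℕ) : ℝ)) := by
    push_cast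
    rw [← mul_div_assoc, div_le_div_iff₀ (by linarith) (by linarith)]
    nlinarith
  have hq0 : 0 ≤ log (log (log (n : ℝ))) / ((m + 1 : ℕ) : ℝ) := by
    apply div_nonneg (by linarith) (by positivity)
  calc (dimT (m + 1) (Div n) : ℝ) ≤ (Fintype.card V : ℝ) := by exact_mod_cast h1
    _ ≤ 9601 * (1 + log (log (log (n : ℝ))) / m) * R := hV
    _ ≤ 9601 * (1 + 2 * (log (log (log (n : ℝ))) / ((m + 1 : ℕ) : ℝ))) * R := by gcongr
    _ ≤ 19202 * (1 + log (log (log (n : ℝ))) / ((m + 1 : ℕ) : ℝ)) * R := by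
        apply mul_le_mul_of_nonneg_right _ hR0
        linarith
    _ ≤ 19202 * (1 + log (log (log (n : ℝ))) / ((m + 1 : ℕ) : ℝ)) * (72 * (dim (Div n) : ℝ)) := by
        gcongr
    _ = 1382544 * ((1 + log (log (log (n : ℝ))) / ((m + 1 : ℕ) : ℝ)) * (dim (Div n) : ℝ)) := by
        ring
    _ ≤ 1400000 * ((1 + log (log (log (n : ℝ))) / ((m + 1 : ℕ) : ℝ)) * (dim (Div n) : ℝ)) := by
        apply mul_le_mul_of_nonneg_right (by norm_num)
        positivity
    _ = _ := by ring

end Pool.Agent.Results.MP_5601c4_co.ChainLengthRatio
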