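import Mathlib
import Pool.Agent.helper63.DD.Final

set_option autoImplicit false

/-!
# The order of magnitude of the dimension of the divisibility order on `[n]`

We show `dim(Div([n])) = Θ((log n / log log n) ^ 2)`.
-/

namespace Pool.Agent.Results.MP_5601c4_co.DimOrder

open Filter Real

/-- The underlying set `[n] = {1, ..., n}` of the poset `Div([n])`. -/
def Div (n : ℕ) : Type := {k : ℕ // 1 ≤ k ∧ k ≤ n}

/-- `Div([n])` is ordered by divisibility. -/
instance (n : ℕ) : PartialOrder (Div n) where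
  le a b := a.1 ∣ b.1
  le_refl a := dvd_refl a.1
  le_trans _ _ _ h1 h2 := dvd_trans h1 h2
  le_antisymm _ _ h1 h2 := Subtype.ext (Nat.dvd_antisymm h1 h2)

/-- `P` has an order embedding into a product of `d` chains. -/
def EmbedsInChains (P : Type) [PartialOrder P] (d : ℕ) : Prop :=
  ∃ (C : Fin d → Type) (_ : ∀ i, LinearOrder (C i)), Nonempty (P ↪o ((i : Fin d) → C i))

/-- The order dimension: the least `d` such that `P` embeds into a product of `d` chains. -/
noncomputable def dim (P : Type) [PartialOrder P] : ℕ := sInf {d | EmbedsInChains P d}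

/-- Main theorem. For all sufficiently large `n`,
`(1 / 72) (log n / log log n) ^ 2 ≤ dim(Div([n])) ≤ 20000 (log n / log log n) ^ 2`. -/
theorem result : ∀ᶠ n : ℕ in atTop,
    (1 / 72) * (log n / log (log n)) ^ 2 ≤ (dim (Div n) : ℝ) ∧
    (dim (Div n) : ℝ) ≤ 20000 * (log n / log (log n)) ^ 2 := by
  filter_upwards [Pool.Agent.helper63.DD.eventually_good] with n hn
  obtain ⟨hn1, hlll, hup, hlow⟩ := hn
  set R : ℝ := (log n / log (log n)) ^ 2 with hR
  have hR0 : 0 ≤ R := by rw [hR]; positivity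
  -- upper bound
  obtain ⟨V, iV, f, hV, hf⟩ := hup (⌈log (log (log n))⌉₊) (by
    rw [Nat.one_le_ceil_iff]; linarith)
  have hm : log (log (log (n : ℝ))) / (⌈log (log (log n))⌉₊ : ℝ) ≤ 1 := by
    have h1 : (0 : ℝ) < (⌈log (log (log n))⌉₊ : ℝ) := by
      have : (1 : ℝ) ≤ (⌈log (log (log n))⌉₊ : ℝ) := hlll.trans (Nat.le_ceil _)
      linarith
    rw [div_le_one h1]
    exact Nat.le_ceil _
  have hmem : EmbedsInChains (Div n) (Fintype.card V) := by
    classical
    let e := Fintype.equivFin V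
    refine ⟨fun _ => Fin (⌈log (log (log n))⌉₊ + 1), fun _ => inferInstance,
      ⟨OrderEmbedding.ofMapLEIff (fun (k : Div n) i => f k.1 (e.symm i)) (fun a b => ?_)⟩⟩
    rw [Pi.le_def]
    constructor
    · intro h
      refine (hf a.1 b.1 a.2.1 a.2.2 b.2.1 b.2.2).mp ?_
      intro v
      have := h (e v)
      simpa using this
    · intro h i
      exact (hf a.1 b.1 a.2.1 a.2.2 b.2.1 b.2.2).mpr h _
  have h1 : dim (Div n) ≤ Fintype.card V := Nat.sInf_le hmem
  have hdmem : EmbedsInChains (Div n) (dim (Div n)) :=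
    Nat.sInf_mem (s := {d | EmbedsInChains (Div n) d}) ⟨_, hmem⟩
  refine ⟨?_, ?_⟩
  · obtain ⟨C, iC, ⟨e⟩⟩ := hdmem
    classical
    let g : ℕ → ∀ i, C i := fun k => if h : 1 ≤ k ∧ k ≤ n then e ⟨k, h⟩ else e ⟨1, le_refl 1, hn1⟩
    refine hlow _ C iC g ?_
    intro a b ha1 ha2 hb1 hb2
    simp only [g, dif_pos (⟨ha1, ha2⟩ : 1 ≤ a ∧ a ≤ n), dif_pos (⟨hb1, hb2⟩ : 1 ≤ b ∧ b ≤ n)]
    exact e.le_iff_le
  · calc (dim (Div n) : ℝ) ≤ (Fintype.card V : ℝ) := by exact_mod_cast h1
      _ ≤ 9601 * (1 + log (log (log (n : ℝ))) / (⌈log (log (log n))⌉₊ : ℝ)) * R := hV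
      _ ≤ 9601 * (1 + 1) * R := by gcongr
      _ ≤ 20000 * R := by nlinarith

end Pool.Agent.Results.MP_5601c4_co.DimOrder
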